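import Mathlib

/-!
A non-metrizable compact subset of `SC_p(ω^ω)` that is homeomorphic to a compact convex subset of
`ℝ^𝔠`.
-/

namespace Pool.Agent.Results.MP_69956f_gt.ConvexNonmetrizable

open Set Topology Filter

/-- A function `f : X → ℝ` is scatteredly continuous if for every nonempty `A ⊆ X` the restriction
of `f` to `A` has a point of continuity. -/
def ScatteredlyContinuous {X : Type*} [TopologicalSpace X] (f : X → ℝ) : Prop :=
  ∀ A : Set X, A.Nonempty → ∃ a ∈ A, ContinuousWithinAt f A a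

/-- The compact convex set: nonnegative families of sum at most one. -/
def C : Set (ℝ → ℝ) := {b | (∀ i, 0 ≤ b i) ∧ ∀ F : Finset ℝ, ∑ i ∈ F, b i ≤ 1}

lemma le_one {b : ℝ → ℝ} (hb : b ∈ C) (i : ℝ) : b i ≤ 1 := by
  simpa using hb.2 {i}

lemma isCompact_C : IsCompact C := by
  have h1 : IsCompact (Set.pi Set.univ fun _ : ℝ => Set.Icc (0 : ℝ) 1) :=
    isCompact_univ_pi fun _ => isCompact_Icc
  have h2 : IsClosed {b : ℝ → ℝ | ∀ F : Finset ℝ, ∑ i ∈ F, b i ≤ 1} := by
    have : {b : ℝ → ℝ | ∀ F : Finset ℝ, ∑ i ∈ F, b i ≤ 1} =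
        ⋂ F : Finset ℝ, {b | ∑ i ∈ F, b i ≤ 1} := by
      ext x; simp
    rw [this]
    exact isClosed_iInter fun F => isClosed_le (by fun_prop) continuous_const
  have : C = (Set.pi Set.univ fun _ : ℝ => Set.Icc (0 : ℝ) 1) ∩
      {b : ℝ → ℝ | ∀ F : Finset ℝ, ∑ i ∈ F, b i ≤ 1} := by
    ext b
    constructor
    · intro hb
      exact ⟨fun i _ => ⟨hb.1 i, le_one hb i⟩, hb.2⟩
    · rintro ⟨h, h'⟩
      exact ⟨fun i => (h i (mem_univ _)).1, h'⟩
  rw [this]
  exact h1.inter_right h2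

lemma convex_C : Convex ℝ C := by
  intro b hb c hc s t hs ht hst
  refine ⟨fun i => ?_, fun F => ?_⟩
  · simp only [Pi.add_apply, Pi.smul_apply, smul_eq_mul]
    exact add_nonneg (mul_nonneg hs (hb.1 i)) (mul_nonneg ht (hc.1 i))
  · simp only [Pi.add_apply, Pi.smul_apply, smul_eq_mul]
    rw [Finset.sum_add_distrib, ← Finset.mul_sum, ← Finset.mul_sum]
    have h1 := mul_le_mul_of_nonneg_left (hb.2 F) hs
    have h2 := mul_le_mul_of_nonneg_left (hc.2 F) ht
    linarith

/-- Only finitely many coordinates of a member of `C` exceed a given positive bound. -/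
lemma finite_gt {b : ℝ → ℝ} (hb : b ∈ C) {ε : ℝ} (hε : 0 < ε) : {i | ε < b i}.Finite := by
  by_contra h
  have hinf : {i | ε < b i}.Infinite := h
  obtain ⟨N, hN⟩ := exists_nat_gt (1 / ε)
  obtain ⟨F, hF, hFc⟩ := hinf.exists_subset_card_eq N
  have h1 := hb.2 F
  have h2 : (F.card : ℝ) * ε ≤ ∑ i ∈ F, b i := by
    rw [← nsmul_eq_mul]
    exact Finset.card_nsmul_le_sum F b ε fun i hi => (hF hi).le
  rw [hFc] at h2
  have h3 : 1 < (N : ℝ) * ε := by
    rwa [div_lt_iff₀ hε] at hN
  linarith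

/-- The embedding: at `p ∈ ω^ω` with first entry `n` and tail coding the index `i`, the value is
`max (b i - 1 / (n + 1)) 0`. -/
noncomputable def Psi (e : (ℕ → ℕ) ≃ ℝ) (b : C) : (ℕ → ℕ) → ℝ := fun p =>
  max (b.1 (e fun k => p (k + 1)) - 1 / ((p 0 : ℝ) + 1)) 0

lemma continuous_Psi (e : (ℕ → ℕ) ≃ ℝ) : Continuous (Psi e) := by
  refine continuous_pi fun p => ?_
  unfold Psi
  have : Continuous fun b : C => b.1 (e fun k => p (k + 1)) :=
    (continuous_apply _).comp continuous_subtype_val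
  exact (this.sub continuous_const).max continuous_const

lemma Psi_injective (e : (ℕ → ℕ) ≃ ℝ) : Function.Injective (Psi e) := by
  have key : ∀ b c : C, Psi e b = Psi e c → ∀ i, b.1 i ≤ c.1 i := by
    intro b c h i
    by_contra hlt
    push Not at hlt
    have hb : 0 < b.1 i := lt_of_le_of_lt (c.2.1 i) hlt
    obtain ⟨n, hn⟩ := exists_nat_gt (1 / b.1 i)
    let p : ℕ → ℕ := fun k => Nat.casesOn k n (fun k => e.symm i k)
    have h0 : p 0 = n := rfl
    have h1 : (fun k => p (k + 1)) = e.symm i := rfl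
    have h2 := congrFun h p
    simp only [Psi, h0, h1, Equiv.apply_symm_apply] at h2
    have h3 : 1 / ((n : ℝ) + 1) < b.1 i := by
      rw [div_lt_iff₀ hb] at hn
      rw [div_lt_iff₀ (by positivity)]
      nlinarith
    rw [max_eq_left (by linarith)] at h2
    rcases le_total (c.1 i - 1 / ((n : ℝ) + 1)) 0 with h4 | h4
    · rw [max_eq_right h4] at h2
      linarith
    · rw [max_eq_left h4] at h2
      linarith
  intro b c h
  apply Subtype.ext
  funext i
  exact le_antisymm (key b c h i) (key c b h.symm i)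

lemma scatteredlyContinuous_Psi (e : (ℕ → ℕ) ≃ ℝ) (b : C) : ScatteredlyContinuous (Psi e b) := by
  rintro A ⟨a₀, ha₀⟩
  -- the finitely many points with first entry `a₀ 0` where the function does not vanish
  let S : Set (ℕ → ℕ) := {p | p 0 = a₀ 0 ∧ 1 / ((a₀ 0 : ℝ) + 1) < b.1 (e fun k => p (k + 1))}
  have hS : S.Finite := by
    have h1 : {i | 1 / ((a₀ 0 : ℝ) + 1) < b.1 i}.Finite := finite_gt b.2 (by positivity)
    refine Set.Finite.of_finite_image (f := fun p : ℕ → ℕ => e fun k => p (k + 1))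
      (h1.subset ?_) ?_
    · rintro _ ⟨p, hp, rfl⟩
      exact hp.2
    · intro p hp q hq hpq
      have h2 : (fun k => p (k + 1)) = fun k => q (k + 1) := e.injective hpq
      funext k
      cases k with
      | zero => rw [hp.1, hq.1]
      | succ k => exact congrFun h2 k
  have hopen : IsOpen {p : ℕ → ℕ | p 0 = a₀ 0} :=
    (isOpen_discrete ({a₀ 0} : Set ℕ)).preimage (continuous_apply (A := fun _ : ℕ => ℕ) 0)
  by_cases h : ∃ a ∈ A, a 0 = a₀ 0 ∧ a ∉ S
  · obtain ⟨a, haA, ha0, haS⟩ := h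
    refine ⟨a, haA, ContinuousAt.continuousWithinAt ?_⟩
    have hU : IsOpen ({p : ℕ → ℕ | p 0 = a₀ 0} ∩ Sᶜ) := hopen.inter hS.isClosed.isOpen_compl
    have hz : ∀ p ∈ {p : ℕ → ℕ | p 0 = a₀ 0} ∩ Sᶜ, Psi e b p = 0 := by
      rintro p ⟨hp0, hpS⟩
      have hp0' : p 0 = a₀ 0 := hp0
      have : ¬ (1 / ((a₀ 0 : ℝ) + 1) < b.1 (e fun k => p (k + 1))) := fun h => hpS ⟨hp0', h⟩
      simp only [Psi, hp0']
      apply max_eq_right
      linarith
    have hev : Psi e b =ᶠ[𝓝 a] fun _ => 0 := by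
      filter_upwards [hU.mem_nhds ⟨ha0, haS⟩] with p hp
      exact hz p hp
    exact continuousAt_const.congr hev.symm
  · push Not at h
    refine ⟨a₀, ha₀, ?_⟩
    have hU : IsOpen ({p : ℕ → ℕ | p 0 = a₀ 0} ∩ (S \ {a₀})ᶜ) :=
      hopen.inter (hS.subset diff_subset).isClosed.isOpen_compl
    have hmem : a₀ ∈ {p : ℕ → ℕ | p 0 = a₀ 0} ∩ (S \ {a₀})ᶜ := ⟨rfl, fun h => h.2 rfl⟩
    have hsub : A ∩ ({p : ℕ → ℕ | p 0 = a₀ 0} ∩ (S \ {a₀})ᶜ) ⊆ {a₀} := by
      rintro p ⟨hpA, hp0, hpS⟩
      by_contra hne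
      exact hpS ⟨h p hpA hp0, hne⟩
    have h1 : 𝓝[A] a₀ ≤ pure a₀ := by
      have h2 : {a₀} ∈ 𝓝[A] a₀ := by
        filter_upwards [mem_nhdsWithin_of_mem_nhds (hU.mem_nhds hmem), self_mem_nhdsWithin]
          with p hp hpA
        exact hsub ⟨hpA, hp⟩
      exact Filter.le_pure_iff.2 h2
    exact (tendsto_pure_nhds (Psi e b) a₀).mono_left h1

lemma not_metrizable_C : ¬ TopologicalSpace.MetrizableSpace C := by
  classical
  intro hm
  have : CompactSpace C := isCompact_iff_compactSpace.1 isCompact_C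
  let U : ℝ → Set C := fun x => {f | (1 / 2 : ℝ) < f.1 x}
  have hU : ∀ x, IsOpen (U x) := fun x =>
    isOpen_lt continuous_const ((continuous_apply x).comp continuous_subtype_val)
  have hne : ∀ x, (U x).Nonempty := by
    intro x
    refine ⟨⟨Pi.single x 1, ⟨fun i => ?_, fun F => ?_⟩⟩, ?_⟩
    · by_cases h : i = x
      · subst h; simp
      · simp [Pi.single_eq_of_ne h]
    · have h1 : ∀ i, (Pi.single x 1 : ℝ → ℝ) i = if i = x then 1 else 0 := fun i => by
        rw [Pi.single_apply]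
      simp only [h1]
      rw [Finset.sum_ite_eq']
      split_ifs <;> norm_num
    · simp [U]; norm_num
  have hdisj : Pairwise (Function.onFun Disjoint U) := by
    intro x y hxy
    refine Set.disjoint_left.2 fun f hfx hfy => ?_
    have h1 : (1 / 2 : ℝ) < f.1 x := hfx
    have h2 : (1 / 2 : ℝ) < f.1 y := hfy
    have h3 := f.2.2 {x, y}
    rw [Finset.sum_pair hxy] at h3
    linarith
  let := TopologicalSpace.metrizableSpaceMetric C
  have hc : Countable ℝ := by
    have := Set.PairwiseDisjoint.countable_of_isOpen (s := U) (a := Set.univ)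
      (fun x _ y _ h => hdisj h) (fun x _ => hU x) (fun x _ => hne x)
    exact Set.countable_univ_iff.1 this
  exact Cardinal.not_countable_real (Set.countable_univ_iff.2 hc)

/-- **There is a compact set `K` of scatteredly continuous real functions on the Baire space `ω^ω`
(with the topology of pointwise convergence) that is homeomorphic to a compact convex subset of
`ℝ^𝔠` (here: the product of real lines indexed by `ℝ`) but is not metrizable.** -/
theorem result : ∃ K : Set ((ℕ → ℕ) → ℝ), IsCompact K ∧ (∀ f ∈ K, ScatteredlyContinuous f) ∧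
    (∃ L : Set (ℝ → ℝ), Convex ℝ L ∧ IsCompact L ∧ Nonempty (K ≃ₜ L)) ∧
    ¬ TopologicalSpace.MetrizableSpace K := by
  have hcard : Cardinal.mk (ℕ → ℕ) = Cardinal.mk ℝ := by
    rw [Cardinal.mk_real]
    simp
  obtain ⟨e⟩ := Cardinal.eq.1 hcard
  have : CompactSpace C := isCompact_iff_compactSpace.1 isCompact_C
  have hemb := ((continuous_Psi e).isClosedEmbedding (Psi_injective e)).isEmbedding
  refine ⟨Set.range (Psi e), isCompact_range (continuous_Psi e), ?_, ?_, ?_⟩
  · rintro _ ⟨b, rfl⟩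
    exact scatteredlyContinuous_Psi e b
  · exact ⟨C, convex_C, isCompact_C, ⟨hemb.toHomeomorph.symm⟩⟩
  · intro hm
    exact not_metrizable_C (hemb.toHomeomorph.isEmbedding.metrizableSpace)

end Pool.Agent.Results.MP_69956f_gt.ConvexNonmetrizable
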